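import Pool.Agent.H80.JE.Targets

/-!
# je_modules, row SYM: the mean over the large columns
-/

set_option autoImplicit false

namespace Pool.Agent.H68.JE

open Finset Filter Topology Pool.Agent.H80.JD Pool.Agent.H80.JE

theorem csum_swap {m : ℕ} (v : Fin m → Bool) (e : Equiv.Perm (Fin m)) :
    csum (v ∘ e) = csum v := by
  unfold csum
  exact Equiv.sum_comp e (fun j => sg (v j))

theorem mem_bigs {τ : ℝ} {m : ℕ} {v : Fin m → Bool} : v ∈ bigs τ m ↔ Big τ v := by
  unfold bigs
  simp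

/-- The sum over the large columns of the coordinate `j`, with the sign of the column sum. -/
noncomputable def SS (τ : ℝ) (m : ℕ) (j : Fin m) : ℝ :=
  ∑ v ∈ bigs τ m, ((sg (cs v) : ℤ) : ℝ) * ((sg (v j) : ℤ) : ℝ)

theorem ss_eq (τ : ℝ) (m : ℕ) (i j : Fin m) : SS τ m i = SS τ m j := by
  unfold SS
  have h : ∀ v : Fin m → Bool, (v ∘ Equiv.swap i j) ∘ Equiv.swap i j = v := by
    intro v
    funext l
    simp
  refine Finset.sum_nbij' (fun v => v ∘ Equiv.swap i j) (fun v => v ∘ Equiv.swap i j) ?_ ?_ ?_ ?_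
    ?_
  · intro v hv
    rw [mem_bigs] at hv ⊢
    unfold Big at hv ⊢
    rwa [csum_swap]
  · intro v hv
    rw [mem_bigs] at hv ⊢
    unfold Big at hv ⊢
    rwa [csum_swap]
  · intro v _
    exact h v
  · intro v _
    exact h v
  · intro v _
    have e1 : cs (v ∘ Equiv.swap i j) = cs v := by
      unfold cs
      rw [csum_swap]
    rw [e1]
    simp

theorem sum_ss (τ : ℝ) (m : ℕ) : ∑ j, SS τ m j = MB τ m := by
  unfold SS MB
  rw [Finset.sum_comm]
  refine Finset.sum_congr rfl fun v _ => ?_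
  rw [← Finset.mul_sum]
  have e : ∑ j, ((sg (v j) : ℤ) : ℝ) = ((csum v : ℤ) : ℝ) := by
    unfold csum
    push_cast
    rfl
  rw [e]
  unfold cs
  by_cases h : csum v < 0
  · rw [decide_eq_true h, sg_true]
    have h2 : ((csum v : ℤ) : ℝ) < 0 := by exact_mod_cast h
    rw [abs_of_neg h2]
    push_cast
    ring
  · rw [decide_eq_false h, sg_false]
    have h2 : 0 ≤ ((csum v : ℤ) : ℝ) := by exact_mod_cast not_lt.1 h
    rw [abs_of_nonneg h2]
    push_cast
    ring

theorem sym : T_SYM := by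
  intro m τ D
  have h1 : ∑ v ∈ bigs τ m, ((sg (cs v) : ℤ) : ℝ) * lin D v = ∑ j, D j * SS τ m j := by
    unfold SS lin
    simp only [Finset.mul_sum]
    rw [Finset.sum_comm]
    refine Finset.sum_congr rfl fun j _ => Finset.sum_congr rfl fun v _ => ?_
    ring
  rw [h1, ← sum_ss, Finset.sum_mul]
  rw [Finset.sum_mul]
  refine Finset.sum_congr rfl fun j _ => ?_
  have h2 : ∑ i, SS τ m i = m * SS τ m j := by
    rw [Finset.sum_congr rfl fun i _ => ss_eq τ m i j, Finset.sum_const, Finset.card_univ,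
      Fintype.card_fin, nsmul_eq_mul]
  rw [h2]
  ring

end Pool.Agent.H68.JE
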